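import Pool.Agent.helper58.CRO.SpecA

set_option autoImplicit false

open scoped Manifold ContDiff Topology ENNReal
open MeasureTheory Set

noncomputable section

namespace Pool.Agent.CRO

theorem HES_inner {n : ℕ} (φ : StrongDual ℝ (En n)) (x : En n) :
    inner ℝ ((InnerProductSpace.toDual ℝ (En n)).symm φ) x = φ x :=
  InnerProductSpace.toDual_symm_apply

theorem HES_symp {n : ℕ} (H : PS n → ℝ) (z w : PS n) : symp (hvf H z) w = fderiv ℝ H z w := by
  unfold symp hvf
  simp only [inner_neg_left, HES_inner, ContinuousLinearMap.comp_apply,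
    ContinuousLinearMap.inl_apply, ContinuousLinearMap.inr_apply]
  rw [sub_neg_eq_add, ← map_add]
  congr 1
  ext <;> simp

theorem HES_diff {n : ℕ} (H : PS n → ℝ) (hH : ContDiff ℝ ∞ H) (z : PS n) :
    DifferentiableAt ℝ (hvf H) z := by
  have hd : Differentiable ℝ (fderiv ℝ H) :=
    (hH.fderiv_right (m := 1) (by norm_cast)).differentiable (by norm_num)
  have hd' : ∀ w : PS n, DifferentiableAt ℝ (fun z => fderiv ℝ H z w) z := fun w =>
    (hd z).clm_apply (differentiableAt_const w)
  unfold hvf
  refine DifferentiableAt.prodMk ?_ ?_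
  · rw [differentiableAt_euclidean]
    intro i
    have h : (fun z => ((InnerProductSpace.toDual ℝ (En n)).symm
        ((fderiv ℝ H z).comp (ContinuousLinearMap.inr ℝ (En n) (En n)))) i) =
        fun z => fderiv ℝ H z (0, EuclideanSpace.single i 1) := by
      funext z
      have h1 := HES_inner ((fderiv ℝ H z).comp (ContinuousLinearMap.inr ℝ (En n) (En n)))
        (EuclideanSpace.single i 1)
      rw [EuclideanSpace.inner_single_right] at h1
      simpa using h1
    rw [h]
    exact hd' _
  · refine DifferentiableAt.neg ?_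
    rw [differentiableAt_euclidean]
    intro i
    have h : (fun z => ((InnerProductSpace.toDual ℝ (En n)).symm
        ((fderiv ℝ H z).comp (ContinuousLinearMap.inl ℝ (En n) (En n)))) i) =
        fun z => fderiv ℝ H z (EuclideanSpace.single i 1, 0) := by
      funext z
      have h1 := HES_inner ((fderiv ℝ H z).comp (ContinuousLinearMap.inl ℝ (En n) (En n)))
        (EuclideanSpace.single i 1)
      rw [EuclideanSpace.inner_single_right] at h1
      simpa using h1
    rw [h]
    exact hd' _

theorem HES_anti {n : ℕ} (v w : PS n) : symp v w = -symp w v := by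
  unfold symp
  rw [real_inner_comm w.2 v.1, real_inner_comm w.1 v.2]
  ring

theorem HES_main {n : ℕ} (H : PS n → ℝ) (hH : ContDiff ℝ ∞ H) (z v w : PS n) :
    symp (fderiv ℝ (hvf H) z v) w = fderiv ℝ (fderiv ℝ H) z v w := by
  have hd : Differentiable ℝ (fderiv ℝ H) :=
    (hH.fderiv_right (m := 1) (by norm_cast)).differentiable (by norm_num)
  let L : PS n →L[ℝ] ℝ := (innerSL ℝ w.2).comp (ContinuousLinearMap.fst ℝ (En n) (En n)) -
    (innerSL ℝ w.1).comp (ContinuousLinearMap.snd ℝ (En n) (En n))
  have hL : ∀ a : PS n, L a = symp a w := by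
    intro a
    show inner ℝ w.2 a.1 - inner ℝ w.1 a.2 = inner ℝ a.1 w.2 - inner ℝ a.2 w.1
    rw [real_inner_comm w.2 a.1, real_inner_comm w.1 a.2]
  have h1 : HasFDerivAt (fun z => L (hvf H z)) (L.comp (fderiv ℝ (hvf H) z)) z :=
    L.hasFDerivAt.comp z (HES_diff H hH z).hasFDerivAt
  have h2 : (fun z => L (hvf H z)) = fun z => fderiv ℝ H z w := by
    funext z
    rw [hL, HES_symp]
  rw [h2] at h1
  have h3 : HasFDerivAt (fun z => fderiv ℝ H z w) ((fderiv ℝ (fderiv ℝ H) z).flip w) z := by
    have := (hd z).hasFDerivAt.clm_apply (hasFDerivAt_const w z)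
    simpa using this
  have h4 := h1.unique h3
  have h5 := congrArg (fun T : PS n →L[ℝ] ℝ => T v) h4
  have h6 : L (fderiv ℝ (hvf H) z v) = fderiv ℝ (fderiv ℝ H) z v w := h5
  rw [← h6, hL]

theorem HES : HES_stmt := by
  intro n H hH z v w
  have hs : IsSymmSndFDerivAt ℝ H z := by
    refine (hH.contDiffAt).isSymmSndFDerivAt ?_
    rw [minSmoothness_of_isRCLikeNormedField]
    exact WithTop.coe_le_coe.2 le_top
  rw [HES_anti v, HES_main H hH, HES_main H hH, hs.eq v w]
  ring

end Pool.Agent.CRO
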