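import Pool.Agent.helper58.CRO.SpecK

/-!
# Row cro:KLX
-/

set_option autoImplicit false

open scoped Manifold ContDiff Topology ENNReal
open MeasureTheory Set Bundle Filter

noncomputable section

namespace Pool.Agent.CRO

/-- The point of the fibre with polar coordinates `q`. -/
def KLX_P (x y : En 2) (a : ℝ) (q : ℝ × ℝ) : En 2 :=
  (q.1 * Real.cos q.2 / ‖x‖) • x + (q.1 * Real.sin q.2 / a) • y

def KLX_kE (e : ℝ) (x y : En 2) (a : ℝ) (k : En 2 → ℝ) (ψ : ℝ) : ℝ≥0∞ :=
  ∫⁻ s in Ioo e 1, ENNReal.ofReal (k (KLX_P x y a (s, ψ)) * s ^ 2)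

theorem KLX_Pcont (x y : En 2) (a : ℝ) : Continuous (KLX_P x y a) := by
  unfold KLX_P
  fun_prop

theorem KLX_conv (h : ℝ → ℝ) (hm : Measurable h) (C : ℝ) (h0 : ∀ u, 0 ≤ h u) (hC : ∀ u, h u ≤ C) :
    ∫⁻ u in Ioo (0 : ℝ) Real.pi, ENNReal.ofReal (h u) =
      ENNReal.ofReal (∫ u in (0 : ℝ)..Real.pi, h u) := by
  rw [intervalIntegral.integral_of_le Real.pi_pos.le, integral_Ioc_eq_integral_Ioo,
    ofReal_integral_eq_lintegral_ofReal]
  · refine Measure.integrableOn_of_bounded (M := C) ?_ hm.aestronglyMeasurable ?_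
    · rw [Real.volume_Ioo]
      exact ENNReal.ofReal_ne_top
    · refine Eventually.of_forall fun u => ?_
      rw [Real.norm_of_nonneg (h0 u)]
      exact hC u
  · exact Eventually.of_forall h0

theorem KLX_fold (kE W : ℝ → ℝ≥0∞) (hk : Measurable kE) (hW : Measurable W)
    (hper : ∀ u, W (u - Real.pi) = W u) :
    ∫⁻ ψ in Ioo (-Real.pi) Real.pi, kE ψ * W ψ =
      ∫⁻ u in Ioo (0 : ℝ) Real.pi, (kE u + kE (u - Real.pi)) * W u := by
  have hpi := Real.pi_pos
  have h1 : ∫⁻ ψ in Ioo (-Real.pi) Real.pi, kE ψ * W ψ = ∫⁻ ψ in Ioc (-Real.pi) Real.pi, kE ψ * W ψ :=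
    setLIntegral_congr Ioo_ae_eq_Ioc
  have h2 : ∫⁻ u in Ioo (0 : ℝ) Real.pi, (kE u + kE (u - Real.pi)) * W u =
      ∫⁻ u in Ioc (0 : ℝ) Real.pi, (kE u + kE (u - Real.pi)) * W u :=
    setLIntegral_congr Ioo_ae_eq_Ioc
  have h3 : Ioc (-Real.pi) Real.pi = Ioc (-Real.pi) 0 ∪ Ioc 0 Real.pi :=
    (Ioc_union_Ioc_eq_Ioc (by linarith) hpi.le).symm
  have h4 : Disjoint (Ioc (-Real.pi) 0) (Ioc 0 Real.pi) := by
    rw [Set.disjoint_left]
    intro u hu hu'
    exact absurd hu'.1 (not_lt.2 hu.2)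
  have h5 : ∫⁻ ψ in Ioc (-Real.pi) 0, kE ψ * W ψ = ∫⁻ u in Ioc (0 : ℝ) Real.pi, kE (u - Real.pi) * W u := by
    have h := (measurePreserving_sub_right (volume : Measure ℝ) Real.pi).setLIntegral_comp_preimage
      (measurableSet_Ioc (a := -Real.pi) (b := (0 : ℝ)))
      (show Measurable (fun ψ => kE ψ * W ψ) from hk.mul hW)
    rw [← h, preimage_sub_const_Ioc]
    have h6 : Ioc (-Real.pi + Real.pi) (0 + Real.pi) = Ioc 0 Real.pi := by
      rw [neg_add_cancel, zero_add]
    rw [h6]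
    refine lintegral_congr fun u => ?_
    rw [hper]
  rw [h1, h2, h3, lintegral_union measurableSet_Ioc h4, h5, add_comm, ← lintegral_add_left]
  · refine lintegral_congr fun u => ?_
    rw [add_mul]
  · exact hk.mul hW

section
variable (e : ℝ) (x y : En 2) (a : ℝ) (k : En 2 → ℝ)

theorem KLX_meas (hk : Measurable k) :
    Measurable fun q : ℝ × ℝ => ENNReal.ofReal (k (KLX_P x y a q) * q.1 ^ 2) :=
  ((hk.comp (KLX_Pcont x y a).measurable).mul (measurable_fst.pow_const 2)).ennreal_ofReal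

theorem KLX_kEmeas (hk : Measurable k) : Measurable (KLX_kE e x y a k) := by
  unfold KLX_kE
  exact (KLX_meas x y a k hk).lintegral_prod_left'

theorem KLX_G (hk : Measurable k) (W : ℝ → ℝ≥0∞) (hW : Measurable W) :
    ∫⁻ s in Ioo e 1, ∫⁻ ψ in Ioo (-Real.pi) Real.pi,
        ENNReal.ofReal (k (KLX_P x y a (s, ψ)) * s ^ 2) * W ψ =
      ∫⁻ ψ in Ioo (-Real.pi) Real.pi, KLX_kE e x y a k ψ * W ψ := by
  rw [lintegral_lintegral_swap]
  · refine lintegral_congr fun ψ => ?_
    rw [lintegral_mul_const, KLX_kE]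
    exact (KLX_meas x y a k hk).comp measurable_prodMk_right
  · exact ((KLX_meas x y a k hk).mul (hW.comp measurable_snd)).aemeasurable

theorem KLX_c3 (he : 0 < e) (he1 : e < 1) :
    ∫⁻ s in Ioo e 1, ENNReal.ofReal (s ^ 2) = ENNReal.ofReal (c3 e) := by
  rw [← ofReal_integral_eq_lintegral_ofReal]
  · congr 1
    rw [← integral_Ioc_eq_integral_Ioo, ← intervalIntegral.integral_of_le he1.le, integral_pow, c3]
    norm_num
  · exact (continuous_pow 2).integrableOn_Icc.mono_set Ioo_subset_Icc_self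
  · exact Eventually.of_forall fun s => sq_nonneg s

theorem KLX_kE_le (he : 0 < e) (he1 : e < 1) (hk : ∀ p, 0 ≤ k p ∧ k p ≤ 1) (ψ : ℝ) :
    KLX_kE e x y a k ψ ≤ ENNReal.ofReal (c3 e) := by
  rw [← KLX_c3 e he he1, KLX_kE]
  refine lintegral_mono fun s => ENNReal.ofReal_le_ofReal ?_
  exact mul_le_of_le_one_left (sq_nonneg s) (hk _).2

end

theorem KLX_c3pos {e : ℝ} (he : 0 < e) (he1 : e < 1) : 0 < c3 e := by
  unfold c3
  have : e ^ 3 < 1 := pow_lt_one₀ he.le he1 (by norm_num)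
  linarith

theorem KLX (h1 : KL3_stmt) (h2 : KT1_stmt) (h3 : KT2_stmt) : KLX_stmt := by
  intro r0 𝒢 x e hx0 hxr he he1 k hk hk01
  obtain ⟨hD, y, hy1, hxy, hn, hc⟩ := h2 r0 𝒢 x hx0 hxr
  have hT := h3 r0 𝒢 x y e hx0 hxr he he1 hy1 hxy hn hD
  set D : ℝ := (𝒢.G x).det with hDdef
  set a : ℝ := Real.sqrt D with hadef
  have ha : 0 < a := Real.sqrt_pos.2 hD
  have haD : a * a = D := Real.mul_self_sqrt hD.le
  have hc3 := KLX_c3pos he he1
  have hpi := Real.pi_pos
  -- the coordinates of the point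
  have hPx : ∀ q : ℝ × ℝ, inner ℝ x (KLX_P x y a q) / ‖x‖ = q.1 * Real.cos q.2 := by
    intro q
    rw [KLX_P, inner_add_right, inner_smul_right, inner_smul_right, hxy, real_inner_self_eq_norm_sq]
    field_simp
    ring
  have hPy : ∀ q : ℝ × ℝ, inner ℝ y (KLX_P x y a q) = q.1 * Real.sin q.2 / a := by
    intro q
    rw [KLX_P, inner_add_right, inner_smul_right, inner_smul_right, real_inner_comm, hxy,
      real_inner_self_eq_norm_sq, hy1]
    ring
  set kE : ℝ → ℝ≥0∞ := KLX_kE e x y a k with hkE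
  have hkEm : Measurable kE := KLX_kEmeas e x y a k hk
  have hkEle : ∀ ψ, kE ψ ≤ ENNReal.ofReal (c3 e) := KLX_kE_le e x y a k he he1 hk01
  -- the function on the half circle
  set κ : ℝ → ℝ := fun u => (kE u + kE (u - Real.pi)).toReal / (2 * c3 e) with hκ
  have hκm : Measurable κ :=
    ((hkEm.add (hkEm.comp (measurable_id.sub_const _))).ennreal_toReal).div_const _
  have hfin : ∀ u, kE u + kE (u - Real.pi) ≤ ENNReal.ofReal (2 * c3 e) := by
    intro u
    rw [two_mul, ENNReal.ofReal_add hc3.le hc3.le]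
    exact add_le_add (hkEle _) (hkEle _)
  have hκ01 : ∀ u, 0 ≤ κ u ∧ κ u ≤ 1 := by
    intro u
    refine ⟨by positivity, ?_⟩
    rw [hκ]
    simp only
    rw [div_le_one (by positivity)]
    exact ENNReal.toReal_le_of_le_ofReal (by positivity) (hfin u)
  have hκE : ∀ u, kE u + kE (u - Real.pi) = ENNReal.ofReal (2 * c3 e) * ENNReal.ofReal (κ u) := by
    intro u
    have hne : kE u + kE (u - Real.pi) ≠ ⊤ := ne_top_of_le_ne_top ENNReal.ofReal_ne_top (hfin u)
    rw [← ENNReal.ofReal_mul (by positivity), hκ]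
    simp only
    rw [mul_div_cancel₀ _ (by positivity : (2 * c3 e : ℝ) ≠ 0), ENNReal.ofReal_toReal hne]
  obtain ⟨hX0, hX1, hX⟩ := h1 κ hκm hκ01
  refine ⟨(∫ u in (0 : ℝ)..Real.pi, κ u * |Real.cos u|) / 2, ⟨hX0, hX1⟩, ?_, ?_⟩
  · -- the first integral
    have hmc : Measurable fun u : ℝ => κ u * |Real.cos u| := by
      have h : Measurable fun u : ℝ => |Real.cos u| := by
        refine Continuous.measurable ?_
        fun_prop
      exact hκm.mul h
    have hm1 : Measurable fun p : En 2 => ENNReal.ofReal (k p * |inner ℝ x p| / ‖x‖) := by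
      have h : Measurable fun p : En 2 => |inner ℝ x p| := by
        refine Continuous.measurable ?_
        fun_prop
      exact ((hk.mul h).div_const _).ennreal_ofReal
    rw [hT (fun p : En 2 => ENNReal.ofReal (k p * |inner ℝ x p| / ‖x‖)) hm1]
    have e1 : ∫⁻ s in Ioo e 1, ∫⁻ ψ in Ioo (-Real.pi) Real.pi, ENNReal.ofReal s *
          ENNReal.ofReal (k ((s * Real.cos ψ / ‖x‖) • x + (s * Real.sin ψ / a) • y) *
            |inner ℝ x ((s * Real.cos ψ / ‖x‖) • x + (s * Real.sin ψ / a) • y)| / ‖x‖) =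
        ∫⁻ s in Ioo e 1, ∫⁻ ψ in Ioo (-Real.pi) Real.pi,
          ENNReal.ofReal (k (KLX_P x y a (s, ψ)) * s ^ 2) * ENNReal.ofReal |Real.cos ψ| := by
      refine setLIntegral_congr_fun measurableSet_Ioo fun s hs => ?_
      refine lintegral_congr fun ψ => ?_
      have hs0 : 0 < s := he.trans hs.1
      have h := hPx (s, ψ)
      simp only [KLX_P] at h ⊢
      rw [← ENNReal.ofReal_mul hs0.le, ← ENNReal.ofReal_mul (mul_nonneg (hk01 _).1 (sq_nonneg s))]
      congr 1
      rw [mul_div_assoc, ← abs_of_pos hx0, ← abs_div, abs_of_pos hx0, h, abs_mul, abs_of_pos hs0]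
      ring
    rw [e1, KLX_G e x y a k hk _ (by fun_prop), KLX_fold _ _ hkEm (by fun_prop)
      (fun u => by rw [Real.cos_sub_pi, abs_neg])]
    have e2 : ∫⁻ u in Ioo (0 : ℝ) Real.pi, (kE u + kE (u - Real.pi)) * ENNReal.ofReal |Real.cos u| =
        ENNReal.ofReal (2 * c3 e) * ENNReal.ofReal (∫ u in (0 : ℝ)..Real.pi, κ u * |Real.cos u|) := by
      rw [← KLX_conv (fun u => κ u * |Real.cos u|) hmc 1
        (fun u => mul_nonneg (hκ01 u).1 (abs_nonneg _))
        (fun u => mul_le_one₀ (hκ01 u).2 (abs_nonneg _) (Real.abs_cos_le_one u)),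
        ← lintegral_const_mul _ hmc.ennreal_ofReal]
      refine lintegral_congr fun u => ?_
      rw [hκE, ENNReal.ofReal_mul (hκ01 u).1, mul_assoc]
    rw [e2, ← ENNReal.ofReal_mul (by positivity), ← ENNReal.ofReal_mul (by positivity)]
    congr 1
    ring
  · -- the second integral
    have hsm : ∀ u : ℝ, Measurable fun v : ℝ => |Real.sin (u - v)| := by
      intro u
      refine Continuous.measurable ?_
      fun_prop
    have hms : ∀ u : ℝ, Measurable fun v : ℝ => κ v * |Real.sin (u - v)| := fun u => hκm.mul (hsm u)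
    have hks : ∀ u : ℝ, Measurable fun v : ℝ => kE v * ENNReal.ofReal |Real.sin (u - v)| :=
      fun u => hkEm.mul (hsm u).ennreal_ofReal
    set J : ℝ → ℝ≥0∞ := fun ψ =>
      ∫⁻ ψ' in Ioo (-Real.pi) Real.pi, kE ψ' * ENNReal.ofReal |Real.sin (ψ - ψ')| with hJ
    have hJm : Measurable J := by
      rw [hJ]
      have h : Measurable fun q : ℝ × ℝ => kE q.2 * ENNReal.ofReal |Real.sin (q.1 - q.2)| :=
        (hkEm.comp measurable_snd).mul (by fun_prop)
      exact h.lintegral_prod_right'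
    have hcrs : Measurable fun q : En 2 × En 2 =>
        ENNReal.ofReal (crs (𝒢.G x q.1) (𝒢.G x q.2) * k q.2) := by
      refine Measurable.ennreal_ofReal (Measurable.mul ?_ (hk.comp measurable_snd))
      refine Continuous.measurable ?_
      unfold crs
      fun_prop
    have hcrs2 : ∀ p : En 2, Measurable fun p' : En 2 =>
        ENNReal.ofReal (crs (𝒢.G x p) (𝒢.G x p') * k p') := by
      intro p
      refine Measurable.ennreal_ofReal (Measurable.mul ?_ hk)
      refine Continuous.measurable ?_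
      unfold crs
      fun_prop
    have hin : ∀ (s ψ : ℝ), 0 < s → ∫⁻ p' in Fb 𝒢 e x,
        ENNReal.ofReal (crs (𝒢.G x (KLX_P x y a (s, ψ))) (𝒢.G x p') * k p') = ENNReal.ofReal s * J ψ := by
      intro s ψ hs
      rw [hT (fun p' => ENNReal.ofReal (crs (𝒢.G x (KLX_P x y a (s, ψ))) (𝒢.G x p') * k p'))
        (hcrs2 (KLX_P x y a (s, ψ)))]
      have e1 : ∫⁻ s' in Ioo e 1, ∫⁻ ψ' in Ioo (-Real.pi) Real.pi, ENNReal.ofReal s' *
            ENNReal.ofReal (crs (𝒢.G x (KLX_P x y a (s, ψ)))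
              (𝒢.G x ((s' * Real.cos ψ' / ‖x‖) • x + (s' * Real.sin ψ' / a) • y)) *
                k ((s' * Real.cos ψ' / ‖x‖) • x + (s' * Real.sin ψ' / a) • y)) =
          ∫⁻ s' in Ioo e 1, ∫⁻ ψ' in Ioo (-Real.pi) Real.pi,
            ENNReal.ofReal (k (KLX_P x y a (s', ψ')) * s' ^ 2) *
              (ENNReal.ofReal (a * s) * ENNReal.ofReal |Real.sin (ψ - ψ')|) := by
        refine setLIntegral_congr_fun measurableSet_Ioo fun s' hs' => ?_
        refine lintegral_congr fun ψ' => ?_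
        have hs0 : 0 < s' := he.trans hs'.1
        have hp' : ((s' * Real.cos ψ' / ‖x‖) • x + (s' * Real.sin ψ' / a) • y) = KLX_P x y a (s', ψ') := rfl
        rw [hp', hc, hPx, hPx, hPy, hPy, ← ENNReal.ofReal_mul hs0.le, ← ENNReal.ofReal_mul (by positivity),
          ← ENNReal.ofReal_mul (mul_nonneg (hk01 _).1 (sq_nonneg s'))]
        congr 1
        simp only
        have h6 : s * Real.cos ψ * (s' * Real.sin ψ' / a) - s * Real.sin ψ / a * (s' * Real.cos ψ') =
            -(s * s' / a * Real.sin (ψ - ψ')) := by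
          rw [Real.sin_sub]
          ring
        rw [h6, abs_neg, abs_mul, abs_of_pos (by positivity : (0 : ℝ) < s * s' / a), ← haD]
        field_simp
      rw [e1, KLX_G e x y a k hk _ (by fun_prop)]
      have e2 : ∫⁻ ψ' in Ioo (-Real.pi) Real.pi, kE ψ' *
          (ENNReal.ofReal (a * s) * ENNReal.ofReal |Real.sin (ψ - ψ')|) = ENNReal.ofReal (a * s) * J ψ := by
        rw [hJ]
        simp only
        rw [← lintegral_const_mul _ (hks ψ)]
        refine lintegral_congr fun ψ' => ?_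
        ring
      rw [e2, ← mul_assoc, ← ENNReal.ofReal_mul (by positivity)]
      congr 2
      field_simp
    have hFm : Measurable fun p : En 2 => ENNReal.ofReal (k p) * ∫⁻ p' in Fb 𝒢 e x,
        ENNReal.ofReal (crs (𝒢.G x p) (𝒢.G x p') * k p') :=
      hk.ennreal_ofReal.mul hcrs.lintegral_prod_right'
    rw [hT (fun p : En 2 => ENNReal.ofReal (k p) * ∫⁻ p' in Fb 𝒢 e x,
        ENNReal.ofReal (crs (𝒢.G x p) (𝒢.G x p') * k p')) hFm]
    have e1 : ∫⁻ s in Ioo e 1, ∫⁻ ψ in Ioo (-Real.pi) Real.pi, ENNReal.ofReal s *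
          (ENNReal.ofReal (k ((s * Real.cos ψ / ‖x‖) • x + (s * Real.sin ψ / a) • y)) *
            ∫⁻ p' in Fb 𝒢 e x, ENNReal.ofReal (crs (𝒢.G x
              ((s * Real.cos ψ / ‖x‖) • x + (s * Real.sin ψ / a) • y)) (𝒢.G x p') * k p')) =
        ∫⁻ s in Ioo e 1, ∫⁻ ψ in Ioo (-Real.pi) Real.pi,
          ENNReal.ofReal (k (KLX_P x y a (s, ψ)) * s ^ 2) * J ψ := by
      refine setLIntegral_congr_fun measurableSet_Ioo fun s hs => ?_
      refine lintegral_congr fun ψ => ?_
      have hs0 : 0 < s := he.trans hs.1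
      have hp : ((s * Real.cos ψ / ‖x‖) • x + (s * Real.sin ψ / a) • y) = KLX_P x y a (s, ψ) := rfl
      rw [hp, hin s ψ hs0, ENNReal.ofReal_mul (hk01 _).1, sq, ENNReal.ofReal_mul hs0.le]
      ring
    rw [e1, KLX_G e x y a k hk _ hJm, KLX_fold _ _ hkEm hJm (fun u => by
      rw [hJ]
      simp only
      refine lintegral_congr fun ψ' => ?_
      have h7 : u - Real.pi - ψ' = u - ψ' - Real.pi := by ring
      rw [h7, Real.sin_sub_pi, abs_neg])]
    have hJ2 : ∀ u, J u = ENNReal.ofReal (2 * c3 e) *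
        ∫⁻ v in Ioo (0 : ℝ) Real.pi, ENNReal.ofReal (κ v * |Real.sin (u - v)|) := by
      intro u
      have h := KLX_fold kE (fun v => ENNReal.ofReal |Real.sin (u - v)|) hkEm (by fun_prop) (fun v => by
        have h7 : u - (v - Real.pi) = u - v + Real.pi := by ring
        rw [h7, Real.sin_add_pi, abs_neg])
      rw [hJ]
      simp only
      rw [h, ← lintegral_const_mul _ (hms u).ennreal_ofReal]
      refine lintegral_congr fun v => ?_
      rw [hκE, ENNReal.ofReal_mul (hκ01 v).1, mul_assoc]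
    have hHm : Measurable fun u : ℝ => ∫ v in (0 : ℝ)..Real.pi, κ u * κ v * |Real.sin (u - v)| := by
      have h : StronglyMeasurable fun q : ℝ × ℝ => κ q.1 * κ q.2 * |Real.sin (q.1 - q.2)| :=
        (((hκm.comp measurable_fst).mul (hκm.comp measurable_snd)).mul (by fun_prop)).stronglyMeasurable
      have h' : (fun u : ℝ => ∫ v in (0 : ℝ)..Real.pi, κ u * κ v * |Real.sin (u - v)|) =
          fun u => ∫ v, κ u * κ v * |Real.sin (u - v)| ∂(volume.restrict (Ioc 0 Real.pi)) := by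
        funext u
        rw [intervalIntegral.integral_of_le hpi.le]
      rw [h']
      exact (h.integral_prod_right' (ν := volume.restrict (Ioc 0 Real.pi))).measurable
    have hb : ∀ u v, 0 ≤ κ u * κ v * |Real.sin (u - v)| ∧ κ u * κ v * |Real.sin (u - v)| ≤ 1 := by
      intro u v
      refine ⟨mul_nonneg (mul_nonneg (hκ01 u).1 (hκ01 v).1) (abs_nonneg _), ?_⟩
      refine mul_le_one₀ (mul_le_one₀ (hκ01 u).2 (hκ01 v).1 (hκ01 v).2) (abs_nonneg _) ?_
      exact Real.abs_sin_le_one _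
    have e2 : ∫⁻ u in Ioo (0 : ℝ) Real.pi, (kE u + kE (u - Real.pi)) * J u =
        ENNReal.ofReal (4 * c3 e ^ 2) * ENNReal.ofReal
          (∫ u in (0 : ℝ)..Real.pi, ∫ v in (0 : ℝ)..Real.pi, κ u * κ v * |Real.sin (u - v)|) := by
      rw [← KLX_conv _ hHm Real.pi
        (fun u => intervalIntegral.integral_nonneg hpi.le fun v _ => (hb u v).1) (fun u => ?_),
        ← lintegral_const_mul _ hHm.ennreal_ofReal]
      · refine lintegral_congr fun u => ?_
        rw [← KLX_conv (fun v => κ u * κ v * |Real.sin (u - v)|)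
          ((measurable_const.mul hκm).mul (by fun_prop)) 1 (fun v => (hb u v).1) (fun v => (hb u v).2),
          hκE, hJ2]
        have e3 : ∫⁻ v in Ioo (0 : ℝ) Real.pi, ENNReal.ofReal (κ u * κ v * |Real.sin (u - v)|) =
            ENNReal.ofReal (κ u) * ∫⁻ v in Ioo (0 : ℝ) Real.pi, ENNReal.ofReal (κ v * |Real.sin (u - v)|) := by
          rw [← lintegral_const_mul _ (hms u).ennreal_ofReal]
          refine lintegral_congr fun v => ?_
          rw [← ENNReal.ofReal_mul (hκ01 u).1, mul_assoc]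
        rw [e3]
        have e4 : ENNReal.ofReal (4 * c3 e ^ 2) = ENNReal.ofReal (2 * c3 e) * ENNReal.ofReal (2 * c3 e) := by
          rw [← ENNReal.ofReal_mul (by positivity)]
          congr 1
          ring
        rw [e4]
        ring
      · have h8 : ∫ v in (0 : ℝ)..Real.pi, κ u * κ v * |Real.sin (u - v)| ≤ ∫ v in (0 : ℝ)..Real.pi, (1 : ℝ) := by
          refine intervalIntegral.integral_mono_on hpi.le ?_ (by simp) fun v _ => (hb u v).2
          rw [intervalIntegrable_iff_integrableOn_Ioc_of_le hpi.le]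
          refine Measure.integrableOn_of_bounded (M := 1) ?_
            ((measurable_const.mul hκm).mul (by fun_prop)).aestronglyMeasurable ?_
          · rw [Real.volume_Ioc]
            exact ENNReal.ofReal_ne_top
          · refine Eventually.of_forall fun v => ?_
            rw [Real.norm_of_nonneg (hb u v).1]
            exact (hb u v).2
        refine h8.trans ?_
        simp
    rw [e2, ← ENNReal.ofReal_mul (by positivity), ← ENNReal.ofReal_mul (by positivity)]
    refine ENNReal.ofReal_le_ofReal ?_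
    have h9 : 4 * c3 e ^ 2 * (4 * fl ((∫ u in (0 : ℝ)..Real.pi, κ u * |Real.cos u|) / 2)) ≤
        4 * c3 e ^ 2 * ∫ u in (0 : ℝ)..Real.pi, ∫ v in (0 : ℝ)..Real.pi, κ u * κ v * |Real.sin (u - v)| :=
      mul_le_mul_of_nonneg_left hX (by positivity)
    have h10 := mul_le_mul_of_nonneg_left h9 (inv_nonneg.2 ha.le)
    refine le_trans (le_of_eq ?_) h10
    ring

end Pool.Agent.CRO
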