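import Pool.Agent.helper58.CRO.SpecL

/-!
# Row cro:LSM
-/

set_option autoImplicit false

open scoped Manifold ContDiff Topology ENNReal
open MeasureTheory Set Bundle Filter

noncomputable section

namespace Pool.Agent.CRO

theorem LSM_sum (q : ℝ → ℝ) (hanti : AntitoneOn q (Ici 0)) (h0 : ∀ x : ℝ, 0 ≤ x → 0 ≤ q x)
    (hint : IntegrableOn q (Ioi 0)) (κ : ℝ) (hκ : 0 < κ) (M : ℕ) :
    ∑ i ∈ Finset.range M, q (κ * ((i : ℝ) + 1)) ≤ κ⁻¹ * ∫ x in Ioi (0 : ℝ), q x := by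
  have ha : AntitoneOn (fun x => q (κ * x)) (Icc 0 (0 + (M : ℝ))) := by
    intro x hx y hy hxy
    exact hanti (mem_Ici.2 (mul_nonneg hκ.le hx.1)) (mem_Ici.2 (mul_nonneg hκ.le hy.1))
      (mul_le_mul_of_nonneg_left hxy hκ.le)
  have h1 := ha.sum_le_integral
  have h2 : ∑ i ∈ Finset.range M, q (κ * ((i : ℝ) + 1)) =
      ∑ i ∈ Finset.range M, (fun x => q (κ * x)) (0 + ((i + 1 : ℕ) : ℝ)) := by
    refine Finset.sum_congr rfl fun i _ => ?_
    push_cast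
    rw [zero_add]
  rw [h2]
  refine h1.trans ?_
  rw [intervalIntegral.integral_comp_mul_left _ hκ.ne', mul_zero, zero_add, smul_eq_mul]
  refine mul_le_mul_of_nonneg_left ?_ (inv_nonneg.2 hκ.le)
  rw [intervalIntegral.integral_of_le (by positivity)]
  refine setIntegral_mono_set hint ?_ (Eventually.of_forall fun x hx => hx.1)
  exact (ae_restrict_mem measurableSet_Ioi).mono fun x hx => h0 x (le_of_lt hx)

theorem LSM_core (q : ℝ → ℝ) (B : ℝ) (hB : 0 < B) (hanti : AntitoneOn q (Ici 0))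
    (h01 : ∀ x : ℝ, 0 ≤ x → 0 ≤ q x ∧ q x ≤ 1) (hq2 : ∀ x : ℝ, 0 < x → q x ≤ B / x ^ 2)
    (hint : IntegrableOn q (Ioi 0)) (R : ℝ) (hR : 0 < R) (lam : ℕ → ℕ → ℝ)
    (hl : ∀ δ : ℝ, 0 < δ → δ < 1 → ∃ ρ0 c : ℝ, 0 < ρ0 ∧ 0 < c ∧ ∀ N j : ℕ, 1 ≤ N → j ∈ Finset.Icc 1 N →
      c * (((j : ℝ) - 1) * (R / N)) ≤ lam N j ∧
      ((j : ℝ) * (R / N) ≤ ρ0 → (1 - δ) * (((j : ℝ) - 1) * (R / N)) ≤ lam N j))
    (η : ℝ) (hη : 0 < η) :
    ∃ ε0 : ℝ, 0 < ε0 ∧ ∀ ε : ℝ, 0 < ε → ε < ε0 → ∃ N0 : ℕ, ∀ N : ℕ, N0 ≤ N →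
      ∑ j ∈ Finset.Icc 1 N, R / N * (q (lam N j / ε) / ε) ≤ (∫ x in Ioi (0 : ℝ), q x) + η := by
  set I : ℝ := ∫ x in Ioi (0 : ℝ), q x with hI
  have hI0 : 0 ≤ I := setIntegral_nonneg measurableSet_Ioi fun x hx => (h01 x (le_of_lt hx)).1
  set δ : ℝ := (η / 3) / (I + η / 3 + 1) with hδ
  have hden : 0 < I + η / 3 + 1 := by positivity
  have hδ0 : 0 < δ := by positivity
  have hδ1 : δ < 1 := by
    rw [hδ, div_lt_one hden]
    linarith
  have hδI : I / (1 - δ) ≤ I + η / 3 := by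
    rw [div_le_iff₀ (by linarith)]
    have h1 : δ * (I + η / 3) ≤ η / 3 := by
      rw [hδ, div_mul_eq_mul_div, div_le_iff₀ hden]
      have : 0 ≤ η / 3 := by positivity
      nlinarith
    nlinarith
  obtain ⟨ρ0, c, hρ, hc, hlam⟩ := hl δ hδ0 hδ1
  set C : ℝ := B / (c * ρ0 / 2) ^ 2 with hC
  have hC0 : 0 < C := by positivity
  refine ⟨η / (3 * R * C), by positivity, fun ε hε hεε => ?_⟩
  have hε3 : R * C * ε ≤ η / 3 := by
    rw [lt_div_iff₀ (by positivity)] at hεε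
    nlinarith
  obtain ⟨K, hK⟩ := exists_nat_ge (3 * R / (ε * η))
  refine ⟨K + 1, fun N hN => ?_⟩
  obtain ⟨M, rfl⟩ : ∃ M, N = M + 1 := ⟨N - 1, by omega⟩
  set h : ℝ := R / ((M + 1 : ℕ) : ℝ) with hh
  have hNpos : (0 : ℝ) < ((M + 1 : ℕ) : ℝ) := by positivity
  have hh0 : 0 < h := by positivity
  have hhN : ((M + 1 : ℕ) : ℝ) * h = R := by
    rw [hh]
    field_simp
  have hhε : h / ε ≤ η / 3 := by
    have h1 : (K : ℝ) ≤ ((M + 1 : ℕ) : ℝ) := by exact_mod_cast (by omega : K ≤ M + 1)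
    have h2 : 3 * R / (ε * η) ≤ ((M + 1 : ℕ) : ℝ) := hK.trans h1
    rw [div_le_iff₀ (by positivity)] at h2
    rw [div_le_iff₀ hε, hh, div_le_iff₀ hNpos]
    nlinarith
  have hsum : ∑ j ∈ Finset.Icc 1 (M + 1), h * (q (lam (M + 1) j / ε) / ε) =
      (∑ i ∈ Finset.range M, h * (q (lam (M + 1) (i + 2) / ε) / ε)) + h * (q (lam (M + 1) 1 / ε) / ε) := by
    have e1 : Finset.Icc 1 (M + 1) = Finset.Ico (0 + 1) (M + 1 + 1) := by
      ext x
      simp only [Finset.mem_Icc, Finset.mem_Ico]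
      omega
    rw [e1, ← Finset.sum_Ico_add' (fun j => h * (q (lam (M + 1) j / ε) / ε)) 0 (M + 1) 1, ← Finset.range_eq_Ico,
      Finset.sum_range_succ']
  have hfirst : h * (q (lam (M + 1) 1 / ε) / ε) ≤ h / ε := by
    have h1 := (hlam (M + 1) 1 (by omega) (by simp)).1
    rw [Nat.cast_one, sub_self, zero_mul, mul_zero] at h1
    have h2 := (h01 (lam (M + 1) 1 / ε) (div_nonneg h1 hε.le)).2
    rw [div_eq_mul_inv h ε, div_eq_mul_inv _ ε]
    refine mul_le_mul_of_nonneg_left ?_ hh0.le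
    exact mul_le_of_le_one_left (inv_nonneg.2 hε.le) h2
  set κ : ℝ := (1 - δ) * h / ε with hκ
  have h1δ : 0 < 1 - δ := by linarith
  have hκ0 : 0 < κ := by positivity
  have hterm : ∀ i ∈ Finset.range M, h * (q (lam (M + 1) (i + 2) / ε) / ε) ≤
      h / ε * q (κ * ((i : ℝ) + 1)) + h * (C * ε) := by
    intro i hi
    rw [Finset.mem_range] at hi
    obtain ⟨h1, h2⟩ := hlam (M + 1) (i + 2) (by omega) (Finset.mem_Icc.2 ⟨by omega, by omega⟩)
    have e1 : (((i + 2 : ℕ) : ℝ) - 1) = (i : ℝ) + 1 := by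
      push_cast
      ring
    rw [e1, ← hh] at h1 h2
    have hi0 : (0 : ℝ) ≤ (i : ℝ) := Nat.cast_nonneg _
    have hi1 : (0 : ℝ) < (i : ℝ) + 1 := by positivity
    have hA : 0 ≤ h / ε * q (κ * ((i : ℝ) + 1)) :=
      mul_nonneg (by positivity) (h01 _ (by positivity)).1
    by_cases hcase : ((i + 2 : ℕ) : ℝ) * h ≤ ρ0
    · have h3 := h2 hcase
      have h4 : κ * ((i : ℝ) + 1) ≤ lam (M + 1) (i + 2) / ε := by
        rw [le_div_iff₀ hε, hκ]
        have : (1 - δ) * h / ε * ((i : ℝ) + 1) * ε = (1 - δ) * (((i : ℝ) + 1) * h) := by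
          field_simp
        rw [this]
        exact h3
      have h5 : q (lam (M + 1) (i + 2) / ε) ≤ q (κ * ((i : ℝ) + 1)) := by
        have h6 : 0 ≤ κ * ((i : ℝ) + 1) := by positivity
        exact hanti (mem_Ici.2 h6) (mem_Ici.2 (h6.trans h4)) h4
      have h7 : h * (q (lam (M + 1) (i + 2) / ε) / ε) ≤ h / ε * q (κ * ((i : ℝ) + 1)) := by
        have : h * (q (lam (M + 1) (i + 2) / ε) / ε) = h / ε * q (lam (M + 1) (i + 2) / ε) := by ring
        rw [this]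
        exact mul_le_mul_of_nonneg_left h5 (by positivity)
      have h8 : 0 ≤ h * (C * ε) := by positivity
      linarith
    · rw [not_le] at hcase
      have h3 : ρ0 / 2 ≤ ((i : ℝ) + 1) * h := by
        have : ((i + 2 : ℕ) : ℝ) = (i : ℝ) + 2 := by push_cast; ring
        rw [this] at hcase
        nlinarith
      have h4 : c * ρ0 / 2 ≤ lam (M + 1) (i + 2) := by
        refine le_trans ?_ h1
        rw [mul_div_assoc]
        exact mul_le_mul_of_nonneg_left h3 hc.le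
      have h5 : 0 < c * ρ0 / 2 := by positivity
      have h6 : 0 < lam (M + 1) (i + 2) := h5.trans_le h4
      have h7 : q (lam (M + 1) (i + 2) / ε) ≤ C * ε ^ 2 := by
        refine (hq2 _ (div_pos h6 hε)).trans ?_
        rw [hC, div_pow, div_div_eq_mul_div, div_mul_eq_mul_div]
        exact div_le_div_of_nonneg_left (by positivity) (by positivity) (pow_le_pow_left₀ h5.le h4 2)
      have h8 : h * (q (lam (M + 1) (i + 2) / ε) / ε) ≤ h * (C * ε) := by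
        refine mul_le_mul_of_nonneg_left ?_ hh0.le
        rw [div_le_iff₀ hε]
        refine h7.trans (le_of_eq ?_)
        ring
      linarith
  rw [hsum]
  have h1 : ∑ i ∈ Finset.range M, h * (q (lam (M + 1) (i + 2) / ε) / ε) ≤
      h / ε * (κ⁻¹ * I) + (M : ℝ) * (h * (C * ε)) := by
    refine (Finset.sum_le_sum hterm).trans ?_
    rw [Finset.sum_add_distrib, ← Finset.mul_sum, Finset.sum_const, Finset.card_range, nsmul_eq_mul]
    refine add_le_add (mul_le_mul_of_nonneg_left ?_ (by positivity)) le_rfl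
    exact LSM_sum q hanti (fun x hx => (h01 x hx).1) hint κ hκ0 M
  have h2 : h / ε * (κ⁻¹ * I) = I / (1 - δ) := by
    rw [hκ]
    field_simp
  have h3 : (M : ℝ) * (h * (C * ε)) ≤ R * C * ε := by
    have h4 : (M : ℝ) * h ≤ R := by
      rw [← hhN]
      push_cast
      nlinarith
    have h5 : 0 ≤ C * ε := by positivity
    nlinarith
  linarith

theorem LSM (h1 : LQI_stmt) (h2 : LSH_stmt) : LSM_stmt := by
  intro n r0 𝒢 R hn hR hRr η hη
  obtain ⟨ha, h01, hq2, hint, hI⟩ := h1 n hn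
  have hn1 : (0 : ℝ) < (n : ℝ) - 1 := by
    have : (2 : ℝ) ≤ (n : ℝ) := by exact_mod_cast hn
    linarith
  rw [← hI]
  refine LSM_core (qf n) (((n : ℝ) - 1) / 2) (by positivity) ha h01 (fun x hx => ?_) hint R hR
    (fun N j => lj 𝒢 R N j) (fun δ hδ hδ1 => h2 n r0 𝒢 R hn hR hRr δ hδ hδ1) η hη
  refine (hq2 x hx).trans (le_of_eq ?_)
  rw [div_div]

end Pool.Agent.CRO
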